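import Pool.Agent.H14.Sg.C
import Pool.Agent.H14.Sg.D

/-!
# MP_cb3c8e_nt: prime factors of the solutions of `σ₂(n) = σ₂(n+2)`
-/

set_option autoImplicit false

namespace Pool.Agent.Results.MP_cb3c8e_nt.LargePrimeFactors

open Pool.Agent.H14.Sg

/-- For every solution `n > 0` of `σ₂(n) = σ₂(n+2)` neither `n` nor `n + 2` is prime, and
`(pq)² ≤ 162 n³` for all primes `p ∣ n`, `q ∣ n + 2`. -/
theorem result (n : ℕ) (hn : 0 < n)
    (h : ∑ d ∈ n.divisors, d ^ 2 = ∑ d ∈ (n + 2).divisors, d ^ 2) :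
    ¬ n.Prime ∧ ¬ (n + 2).Prime ∧
      ∀ p q : ℕ, p.Prime → q.Prime → p ∣ n → q ∣ n + 2 → (p * q) ^ 2 ≤ 162 * n ^ 3 :=
  ⟨fun hp => not_prime_left hp h, fun hp => not_prime_right hn hp h,
    fun _ _ hp hq hpn hqn => pq_le hn h hp hq hpn hqn⟩

end Pool.Agent.Results.MP_cb3c8e_nt.LargePrimeFactors
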