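import Mathlib
import Pool.Agent.H14.Quart.E

/-!
# Irreducible factors of odd degree of the polynomials `S n`

`S 0 = 1`, `S 1 = x`, `S (m + 1) = (x + 2 m (m + 1)) S m - m ^ 4 S (m - 1)` for `m ≥ 1`.

`result`: in every factorisation of `S n` into polynomials over `ℚ`, and also over the field `ℚ_[2]` of 2-adic numbers,
exactly `n % 2` of the factors have odd degree: none for even `n` and exactly one for odd `n`.

Proof: `S n (1 + s + s ^ 2) = ∑ k, (n choose k) (n! / k!) ^ 2 (s + k) (s + k - 1) ⋯ (s - k + 1)`, and for all integers `a`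
and `t ≥ 0` the polynomial `S n (1 + s + s ^ 2)`, `s = a + 2 ^ t y`, divided by the largest possible power of 2, is
`(y ^ 2 + y) ^ M` (`M` even) or `(y ^ 2 + y) ^ (M - 1) (y ^ 2 + y + 1)` (`M` odd) modulo 2, with `M = ⌊n / 2 ^ t⌋`.
-/

set_option autoImplicit false

namespace Pool.Agent.Results.MP_11e6b7_nt.OddDegreeFactors

open Polynomial

/-- The polynomials of the problem. -/
noncomputable def S : ℕ → ℤ[X]
  | 0 => 1
  | 1 => X
  | m + 2 => (X + C (2 * ((m : ℤ) + 1) * ((m : ℤ) + 2))) * S (m + 1) - C (((m : ℤ) + 1) ^ 4) * S m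

private theorem S_eq : ∀ n : ℕ, S n = Pool.Agent.H14.Quart.S n
  | 0 => rfl
  | 1 => rfl
  | m + 2 => by
    rw [S, Pool.Agent.H14.Quart.S, S_eq (m + 1), S_eq m]

private theorem S_monic_aux (n : ℕ) : (S n).Monic ∧ (S n).natDegree = n ∧
    (S (n + 1)).Monic ∧ (S (n + 1)).natDegree = n + 1 := by
  induction n with
  | zero =>
    refine ⟨monic_one, natDegree_one, monic_X, natDegree_X⟩
  | succ m ih =>
    obtain ⟨h1, h2, h3, h4⟩ := ih
    refine ⟨h3, h4, ?_⟩
    have hS : S (m + 1 + 1) = (X + C (2 * ((m : ℤ) + 1) * ((m : ℤ) + 2))) * S (m + 1)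
        - C (((m : ℤ) + 1) ^ 4) * S m := rfl
    have hm : ((X + C (2 * ((m : ℤ) + 1) * ((m : ℤ) + 2))) * S (m + 1)).Monic :=
      (monic_X_add_C _).mul h3
    have hd : ((X + C (2 * ((m : ℤ) + 1) * ((m : ℤ) + 2))) * S (m + 1)).natDegree = m + 2 := by
      rw [(monic_X_add_C _).natDegree_mul h3, natDegree_X_add_C, h4]; ring
    have hlt : (C (((m : ℤ) + 1) ^ 4) * S m).degree <
        ((X + C (2 * ((m : ℤ) + 1) * ((m : ℤ) + 2))) * S (m + 1)).degree := by
      rw [degree_eq_natDegree hm.ne_zero, hd]
      rw [degree_C_mul (by positivity), degree_eq_natDegree h1.ne_zero, h2]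
      exact_mod_cast (by omega : m < m + 2)
    rw [hS]
    exact ⟨hm.sub_of_left hlt, by rw [natDegree_sub_eq_left_of_natDegree_lt, hd]
                                  · exact natDegree_lt_natDegree (by
                                      intro h0
                                      rcases mul_eq_zero.1 h0 with h | h
                                      · rw [C_eq_zero] at h
                                        have : ((m : ℤ) + 1) ≠ 0 := by positivity
                                        exact pow_ne_zero 4 this h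
                                      · exact h1.ne_zero h) hlt⟩

private theorem S_monic (n : ℕ) : (S n).Monic := (S_monic_aux n).1

private theorem S_natDegree (n : ℕ) : (S n).natDegree = n := (S_monic_aux n).2.1

private theorem toZMod_dvd (x : ℤ_[2]) (h : (PadicInt.toZMod (p := 2)) x = 0) : (2 : ℤ_[2]) ∣ x := by
  have h1 : x ∈ RingHom.ker (PadicInt.toZMod (p := 2)) := h
  rw [PadicInt.ker_toZMod, PadicInt.maximalIdeal_eq_span_p, Ideal.mem_span_singleton] at h1
  exact_mod_cast h1

private theorem pair_padic (n : ℕ) (f g : ℚ_[2][X]) (h : f * g ∣ (S n).map (Int.castRingHom ℚ_[2])) :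
    Even f.natDegree ∨ Even g.natDegree := by
  have hmap : (S n).map (Int.castRingHom ℚ_[2])
      = ((S n).map (Int.castRingHom ℤ_[2])).map (algebraMap ℤ_[2] ℚ_[2]) := by
    rw [Polynomial.map_map, RingHom.ext_int ((algebraMap ℤ_[2] ℚ_[2]).comp (Int.castRingHom ℤ_[2]))]
  have hmon : ((S n).map (Int.castRingHom ℤ_[2])).Monic := (S_monic n).map _
  have hmon' : ((S n).map (Int.castRingHom ℚ_[2])).Monic := (S_monic n).map _
  have hfg : f * g ≠ 0 := by
    intro h0; rw [h0] at h; exact hmon'.ne_zero (zero_dvd_iff.1 h)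
  have hinj : Function.Injective (algebraMap ℤ_[2] ℚ_[2]) := IsFractionRing.injective ℤ_[2] ℚ_[2]
  have key : ∀ u : ℚ_[2][X], u ≠ 0 → u ∣ (S n).map (Int.castRingHom ℚ_[2]) →
      ∃ v : ℤ_[2][X], v.Monic ∧ v.map (algebraMap ℤ_[2] ℚ_[2]) * C u.leadingCoeff = u := by
    intro u hu hd
    rw [hmap] at hd
    obtain ⟨v, hv⟩ := IsIntegrallyClosed.eq_map_mul_C_of_dvd ℚ_[2] hmon hd
    refine ⟨v, ?_, hv⟩
    rw [Function.Injective.monic_map_iff hinj]
    have hl : u.leadingCoeff ≠ 0 := leadingCoeff_ne_zero.2 hu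
    have := congrArg leadingCoeff hv
    rw [leadingCoeff_mul, leadingCoeff_C] at this
    exact mul_right_cancel₀ hl (by rw [this, one_mul])
  obtain ⟨f', hf', hf⟩ := key f (left_ne_zero_of_mul hfg) (dvd_trans (Dvd.intro _ rfl) h)
  obtain ⟨g', hg', hg⟩ := key g (right_ne_zero_of_mul hfg) (dvd_trans (Dvd.intro_left _ rfl) h)
  have hdeg : ∀ (u : ℚ_[2][X]) (v : ℤ_[2][X]), u ≠ 0 →
      v.map (algebraMap ℤ_[2] ℚ_[2]) * C u.leadingCoeff = u → u.natDegree = v.natDegree := by
    intro u v hu hv
    conv_lhs => rw [← hv]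
    rw [natDegree_mul_C (leadingCoeff_ne_zero.2 hu), natDegree_map_eq_of_injective hinj]
  rw [hdeg f f' (left_ne_zero_of_mul hfg) hf, hdeg g g' (right_ne_zero_of_mul hfg) hg]
  have hdvd : f' * g' ∣ (S n).map (Int.castRingHom ℤ_[2]) := by
    rw [← Polynomial.map_dvd_map _ hinj (hf'.mul hg'), ← hmap]
    refine dvd_trans ?_ h
    rw [Polynomial.map_mul]
    exact mul_dvd_mul (Dvd.intro _ hf) (Dvd.intro _ hg)
  rw [S_eq] at hdvd
  exact Pool.Agent.H14.Quart.top_two toZMod_dvd (by norm_num) hf' hg' hdvd

private theorem pair_rat (n : ℕ) (f g : ℚ[X]) (h : f * g ∣ (S n).map (Int.castRingHom ℚ)) :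
    Even f.natDegree ∨ Even g.natDegree := by
  have h1 : f.map (algebraMap ℚ ℚ_[2]) * g.map (algebraMap ℚ ℚ_[2]) ∣ (S n).map (Int.castRingHom ℚ_[2]) := by
    have h2 := Polynomial.map_dvd (algebraMap ℚ ℚ_[2]) h
    rw [Polynomial.map_mul, Polynomial.map_map] at h2
    have h3 : (algebraMap ℚ ℚ_[2]).comp (Int.castRingHom ℚ) = Int.castRingHom ℚ_[2] := RingHom.ext_int _ _
    rwa [h3] at h2
  have h4 := pair_padic n _ _ h1
  rwa [natDegree_map, natDegree_map] at h4

private theorem filter_card {K : Type} [Field K] (m : Multiset K[X]) :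
    (m.map natDegree).sum % 2 = (m.filter (fun f => Odd f.natDegree)).card % 2 := by
  induction m using Multiset.induction with
  | empty => simp
  | cons a m ih =>
    rw [Multiset.map_cons, Multiset.sum_cons]
    rcases Nat.even_or_odd a.natDegree with h | h
    · rw [Multiset.filter_cons_of_neg (p := fun f : K[X] => Odd f.natDegree) m (Nat.not_odd_iff_even.2 h), ← ih]
      have := Nat.even_iff.1 h
      omega
    · rw [Multiset.filter_cons_of_pos (p := fun f : K[X] => Odd f.natDegree) m h, Multiset.card_cons]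
      have := Nat.odd_iff.1 h
      omega

private theorem count {K : Type} [Field K] (P : K[X]) (hP : P ≠ 0)
    (h : ∀ f g : K[X], f * g ∣ P → Even f.natDegree ∨ Even g.natDegree)
    (m : Multiset K[X]) (hm : m.prod = P) :
    (m.filter (fun f => Odd f.natDegree)).card = P.natDegree % 2 := by
  have h0 : (0 : K[X]) ∉ m := by
    intro h1
    apply hP
    rw [← hm]
    exact Multiset.prod_eq_zero h1
  have hd : P.natDegree = (m.map natDegree).sum := by
    rw [← natDegree_multiset_prod _ h0, hm]
  have hle : (m.filter (fun f => Odd f.natDegree)).card ≤ 1 := by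
    by_contra hlt
    push Not at hlt
    have hpos : 0 < (m.filter (fun f => Odd f.natDegree)).card := by omega
    obtain ⟨a, ha⟩ := Multiset.card_pos_iff_exists_mem.1 hpos
    obtain ⟨m1, hm1⟩ := Multiset.exists_cons_of_mem ha
    have hpos1 : 0 < m1.card := by
      have := congrArg Multiset.card hm1
      rw [Multiset.card_cons] at this
      omega
    obtain ⟨b, hb1⟩ := Multiset.card_pos_iff_exists_mem.1 hpos1
    obtain ⟨m2, hm2⟩ := Multiset.exists_cons_of_mem hb1
    have hb : b ∈ m.filter (fun f => Odd f.natDegree) := by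
      rw [hm1]; exact Multiset.mem_cons_of_mem hb1
    have hdvd : a * b ∣ P := by
      have h1 : (m.filter (fun f => Odd f.natDegree)).prod ∣ m.prod :=
        Multiset.prod_dvd_prod_of_le (Multiset.filter_le _ _)
      rw [hm1, hm2, hm, Multiset.prod_cons, Multiset.prod_cons, ← mul_assoc] at h1
      exact dvd_trans (Dvd.intro _ rfl) h1
    rcases h a b hdvd with h2 | h2
    · exact Nat.not_odd_iff_even.2 h2 (Multiset.mem_filter.1 ha).2
    · exact Nat.not_odd_iff_even.2 h2 (Multiset.mem_filter.1 hb).2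
  have h3 := filter_card m
  rw [hd]
  omega

/-- In every factorisation of `S n` into polynomials over `ℚ`, or over the field `ℚ_[2]` of 2-adic numbers, exactly
`n % 2` of the factors have odd degree. -/
theorem result (n : ℕ) :
    (∀ m : Multiset ℚ[X], m.prod = (S n).map (Int.castRingHom ℚ) →
      (m.filter (fun f => Odd f.natDegree)).card = n % 2) ∧
    (∀ m : Multiset ℚ_[2][X], m.prod = (S n).map (Int.castRingHom ℚ_[2]) →
      (m.filter (fun f => Odd f.natDegree)).card = n % 2) := by
  have h1 : ((S n).map (Int.castRingHom ℚ)).natDegree = n := by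
    rw [(S_monic n).natDegree_map, S_natDegree]
  have h2 : ((S n).map (Int.castRingHom ℚ_[2])).natDegree = n := by
    rw [(S_monic n).natDegree_map, S_natDegree]
  constructor
  · intro m hm
    have := count ((S n).map (Int.castRingHom ℚ)) ((S_monic n).map _).ne_zero (pair_rat n) m hm
    rwa [h1] at this
  · intro m hm
    have := count ((S n).map (Int.castRingHom ℚ_[2])) ((S_monic n).map _).ne_zero (pair_padic n) m hm
    rwa [h2] at this

end Pool.Agent.Results.MP_11e6b7_nt.OddDegreeFactors
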