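import Pool.Agent.H14.Sg.C
import Pool.Agent.H14.Sg.E

/-!
# MP_cb3c8e_nt: the solutions of `σ₂(n) = σ₂(n+2)` with `n` and `n + 2` products of two primes
-/

set_option autoImplicit false

namespace Pool.Agent.Results.MP_cb3c8e_nt.SemiprimeSolutions

open Pool.Agent.H14.Sg

/-- (1) `n` and `n + 2` are both products of two primes and `σ₂(n) = σ₂(n+2)` if and only if
`n = p (3p + 2a + 2b)` with `a < b`, `2ab = p² + 1` and `p`, `p + 2a`, `p + 2b`, `3p + 2a + 2b` prime;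
(2) these `n` satisfy `n ≡ -1 (mod 72)`, and (3) there are at most `C(ε) N^(1/2+ε)` of them up to `N`. -/
theorem result :
    (∀ n : ℕ, ((∃ p q : ℕ, p.Prime ∧ q.Prime ∧ n = p * q) ∧ (∃ p q : ℕ, p.Prime ∧ q.Prime ∧ n + 2 = p * q) ∧
        ∑ d ∈ n.divisors, d ^ 2 = ∑ d ∈ (n + 2).divisors, d ^ 2) ↔
      ∃ p a b : ℕ, a < b ∧ 2 * (a * b) = p ^ 2 + 1 ∧ p.Prime ∧ (p + 2 * a).Prime ∧ (p + 2 * b).Prime ∧
        (3 * p + 2 * a + 2 * b).Prime ∧ n = p * (3 * p + 2 * a + 2 * b)) ∧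
    (∀ n : ℕ, ((∃ p q : ℕ, p.Prime ∧ q.Prime ∧ n = p * q) ∧ (∃ p q : ℕ, p.Prime ∧ q.Prime ∧ n + 2 = p * q) ∧
        ∑ d ∈ n.divisors, d ^ 2 = ∑ d ∈ (n + 2).divisors, d ^ 2) → 72 ∣ n + 1) ∧
    (∀ ε : ℝ, 0 < ε → ∃ C : ℝ, 0 < C ∧ ∀ N : ℕ, 1 ≤ N →
      ({n : ℕ | n ≤ N ∧ (∃ p q : ℕ, p.Prime ∧ q.Prime ∧ n = p * q) ∧
        (∃ p q : ℕ, p.Prime ∧ q.Prime ∧ n + 2 = p * q) ∧
        ∑ d ∈ n.divisors, d ^ 2 = ∑ d ∈ (n + 2).divisors, d ^ 2}.ncard : ℝ) ≤ C * (N : ℝ) ^ (1 / 2 + ε)) := by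
  refine ⟨classification, ?_, ?_⟩
  · intro n hn
    obtain ⟨p, a, b, h⟩ := (classification n).1 hn
    exact h.dvd72
  · intro ε hε
    obtain ⟨C, hC, h⟩ := count_le ε hε
    refine ⟨C, hC, fun N hN => ?_⟩
    refine le_trans (le_of_eq ?_) (h N hN)
    congr 2
    ext n
    exact and_congr_right fun _ => classification n

end Pool.Agent.Results.MP_cb3c8e_nt.SemiprimeSolutions
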